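import Mathlib
import Pool.Agent.H16.PCPU

set_option autoImplicit false

namespace Pool.Agent.Results.MP_c472bb_lc.Undecidable

/-- No algorithm decides whether a PCP instance `(h, g)` is a unique equality continuation instance.
The instance has source letters `0, …, k-1`, `H` and `G` list the words `h(i)` and `g(i)`. -/
theorem result :
    ¬ ∃ P : List (List ℕ) × List (List ℕ) → Prop, ComputablePred P ∧
      ∀ H G : List (List ℕ), H.length = G.length →
        (P (H, G) ↔ ∀ u : List ℕ, (∀ i ∈ u, i < H.length) →
          ∀ a b : ℕ, a < H.length → b < H.length → a ≠ b →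
            ((u ++ [a]).flatMap (fun i => H.getD i []) <+: (u ++ [a]).flatMap (fun i => G.getD i []) ∨
              (u ++ [a]).flatMap (fun i => G.getD i []) <+: (u ++ [a]).flatMap (fun i => H.getD i [])) →
            ((u ++ [b]).flatMap (fun i => H.getD i []) <+: (u ++ [b]).flatMap (fun i => G.getD i []) ∨
              (u ++ [b]).flatMap (fun i => G.getD i []) <+: (u ++ [b]).flatMap (fun i => H.getD i [])) →
            u.flatMap (fun i => H.getD i []) = u.flatMap (fun i => G.getD i [])) := by
  rintro ⟨P, hP, k⟩
  obtain ⟨H, G, halt, hH, hn, j⟩ := Pool.Agent.H16.PCPU.main Bool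
  obtain ⟨d, hd⟩ := hP
  have h1 : ComputablePred fun n => P (H n, G) :=
    ⟨fun n => d (H n, G), hd.comp (hH.pair (Computable.const G))⟩
  refine hn (h1.not.of_eq fun n => ?_)
  rw [(k (H n) G (j n).1).trans (j n).2.1]
  simp [(inferInstance : Nontrivial Bool)]

end Pool.Agent.Results.MP_c472bb_lc.Undecidable
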